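import Mathlib
import Pool.Agent.P.MP_51339e_an.Tree

/-!
A Hilbert space `X` with a norm dense linear subspace `A` such that the norm is relatively
`Ba(X,w)`-measurable on `A` but is not `Ba(X,w)`-measurable on `X`.
-/

set_option autoImplicit false

namespace Pool.Agent.Results.MP_51339e_an.DenseSubspace

/-- The Baire σ-algebra `Ba(X,w)` of the weak topology: the smallest σ-algebra on `X` for which
every weakly continuous function `X → ℝ` is (Borel) measurable.  `WeakSpace 𝕜 X` is `X` with the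
topology `σ(X,X*)` and `toWeakSpace 𝕜 X` is the identity map `X → WeakSpace 𝕜 X`. -/
@[reducible] def weakBaire (𝕜 X : Type) [RCLike 𝕜] [NormedAddCommGroup X] [NormedSpace 𝕜 X] :
    MeasurableSpace X :=
  sInf {m : MeasurableSpace X | ∀ f : WeakSpace 𝕜 X → ℝ, Continuous f →
    @Measurable X ℝ m (borel ℝ) (fun x => f (toWeakSpace 𝕜 X x))}

open Pool.Agent.P.MP_51339e_an Filter Topology in
theorem result (𝕜 : Type) [RCLike 𝕜] :
    ∃ (X : Type) (_ : NormedAddCommGroup X) (_ : InnerProductSpace 𝕜 X) (_ : CompleteSpace X)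
      (A : Submodule 𝕜 X),
      Dense (A : Set X) ∧
      (∀ U : Set ℝ, IsOpen U → ∃ B : Set X, @MeasurableSet X (weakBaire 𝕜 X) B ∧
        ∀ a ∈ A, (a ∈ B ↔ ‖a‖ ∈ U)) ∧
      ¬ (∀ U : Set ℝ, IsOpen U →
        @MeasurableSet X (weakBaire 𝕜 X) ((fun x : X => ‖x‖) ⁻¹' U)) := by
  refine ⟨H 𝕜, inferInstance, inferInstance, inferInstance, A 𝕜, dense_A 𝕜, ?_, ?_⟩
  · intro U hU
    let _ : MeasurableSpace (H 𝕜) := weakBaire 𝕜 (H 𝕜)
    have hg : ∀ n, Measurable (g 𝕜 n) := fun n s hs =>
      MeasurableSpace.measurableSet_sInf.mpr fun m hm => hm _ (continuous_g 𝕜 n) hs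
    have hg' : ∀ n, Measurable fun a : A 𝕜 => g 𝕜 n a := fun n =>
      (hg n).comp measurable_subtype_coe
    have hn : Measurable fun a : A 𝕜 => ‖(a : H 𝕜)‖ :=
      measurable_of_tendsto_metrizable hg' (tendsto_pi_nhds.mpr fun a => tendsto_g 𝕜 a a.2)
    obtain ⟨B, hB, hB'⟩ := hn hU.measurableSet
    refine ⟨B, hB, fun a ha => ?_⟩
    exact Set.ext_iff.mp hB' ⟨a, ha⟩
  · intro h
    let m : MeasurableSpace (H 𝕜) :=
      { MeasurableSet' := fun B => Set.Countable {i | ¬ (e 𝕜 i ∈ B ↔ (0 : H 𝕜) ∈ B)}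
        measurableSet_empty := by simp
        measurableSet_compl := fun B hB => hB.mono fun i hi => by
          simp only [Set.mem_ofPred_eq, Set.mem_compl_iff] at hi ⊢
          tauto
        measurableSet_iUnion := fun B hB => (Set.countable_iUnion hB).mono fun i hi => by
          simp only [Set.mem_ofPred_eq, Set.mem_iUnion] at hi ⊢
          by_contra hc
          push Not at hc
          exact hi (exists_congr hc) }
    have hm : ∀ f : WeakSpace 𝕜 (H 𝕜) → ℝ, Continuous f →
        @Measurable (H 𝕜) ℝ m (borel ℝ) (fun x => f (toWeakSpace 𝕜 (H 𝕜) x)) := by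
      intro f hf s _
      refine (countable_ne 𝕜 f hf).mono fun i hi => ?_
      intro heq
      apply hi
      simp only [Set.mem_preimage]
      rw [heq]
    have h1 := MeasurableSpace.measurableSet_sInf.mp (h (Set.Ioi (1 / 2)) isOpen_Ioi) m hm
    apply not_countable_idx
    refine Set.Countable.mono (fun i _ => ?_) h1
    simp only [Set.mem_ofPred_eq, Set.mem_preimage, norm_e, norm_zero, Set.mem_Ioi]
    norm_num

end Pool.Agent.Results.MP_51339e_an.DenseSubspace
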